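import Pool.Agent.MP_66a317_pr.Fast.Basic

open MeasureTheory Set Filter
open scoped ENNReal

namespace Pool.Agent.MP_66a317_pr.Fast

theorem cos_Excl {ε δ Φ t1 : ℝ} (x : ℝ) (hε : 0 < ε) (hε2 : ε ≤ 1 / 2) (ht : 0 < t1)
    (h : ε * t1 ≤ δ) : 1 - δ + t1 - (x ^ 2 / 2 + t1 * (x - Φ) ^ 2 / 2) ≤
      Real.cos x + (1 - ε) * t1 * Real.cos (x - Φ) := by
  have h1 := Real.one_sub_sq_div_two_le_cos (x := x)
  have h2 := Real.one_sub_sq_div_two_le_cos (x := x - Φ)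
  have h3 : 0 ≤ (1 - ε) * t1 := mul_nonneg (by linarith) ht.le
  have h4 := mul_le_mul_of_nonneg_left h2 h3
  have h5 : 0 ≤ ε * t1 * (x - Φ) ^ 2 := by positivity
  nlinarith

theorem rot_Excl {z : ℂ} {a b x y r : ℝ} (h : dist z ((a : ℂ) * cis y + (b : ℂ) * cis x) < r) :
    (b - ((z - a * cis y) * cis (-x)).re) ^ 2 + ((z - a * cis y) * cis (-x)).im ^ 2 < r ^ 2 := by
  have h1 : dist ((z - a * cis y) * cis (-x)) (b : ℂ) = dist z ((a : ℂ) * cis y + b * cis x) := by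
    have e : (b : ℂ) = (b * cis x) * cis (-x) := by rw [mul_assoc, cis_mul_neg, mul_one]
    rw [e, dist_mul_cis, ← e, Complex.dist_eq, Complex.dist_eq]
    congr 1
    ring
  rw [← h1] at h
  have h2 := pow_lt_pow_left₀ h dist_nonneg two_ne_zero
  rw [Complex.dist_eq, Complex.sq_norm, Complex.normSq_apply] at h2
  simp only [Complex.sub_re, Complex.sub_im, Complex.ofReal_re, Complex.ofReal_im, sub_zero] at h2
  nlinarith

theorem re_Excl (z : ℂ) (a x y : ℝ) : ((z + 1) * cis (-x)).re =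
    ((z - a * cis y) * cis (-x)).re + (Real.cos x + a * Real.cos (x - y)) := by
  simp only [Complex.mul_re, Complex.add_re, Complex.add_im, Complex.sub_re, Complex.sub_im,
    Complex.mul_im, Complex.ofReal_re, Complex.ofReal_im, cis_re, cis_im, Complex.one_re,
    Complex.one_im, Real.cos_neg, Real.sin_neg, Real.cos_sub]
  ring

theorem im_Excl (z : ℂ) (a x y : ℝ) : z.im = a * Real.sin y +
    ((z - a * cis y) * cis (-x)).re * Real.sin x + ((z - a * cis y) * cis (-x)).im * Real.cos x := by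
  simp only [Complex.mul_re, Complex.sub_re, Complex.sub_im,
    Complex.mul_im, Complex.ofReal_re, Complex.ofReal_im, cis_re, cis_im,
    Real.cos_neg, Real.sin_neg]
  have h := Real.sin_sq_add_cos_sq x
  linear_combination (-(z.im) + a * Real.sin y) * h

theorem sq_Excl {r c d Y : ℝ} (hr0 : 0 < r) (hr : r ≤ 1) (hc : 0 ≤ c) (hd : r - c ≤ d)
    (h : d ^ 2 + Y ^ 2 < r ^ 2) : Y ^ 2 ≤ 2 * c := by
  rcases le_total c r with h1 | h1
  · have : (r - c) ^ 2 ≤ d ^ 2 := pow_le_pow_left₀ (by linarith) hd 2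
    nlinarith
  · nlinarith [sq_nonneg d]

theorem fin_Excl {E Φ Ψ t1 t' ω : ℝ} (hΦ : 0 < Φ) (h2 : 2 * Φ ≤ Ψ) (hΨ : Ψ ≤ 1 / 2) (ht : 0 < t1)
    (h16 : 16 * Ψ ≤ t1 * Φ) (h4 : 4 * Ψ ^ 3 ≤ Φ) (hE : E ≤ t1 * Ψ * Φ / 2) (h5 : Ψ ≤ ω)
    (h6 : ω ≤ 2 * Ψ) (ht' : t1 ≤ t')
    (h : t' - E - (ω ^ 2 / 2 + t1 * (ω - Φ) ^ 2 / 2) < t' * (1 - ω ^ 2 / 2 + 5 / 96 * ω ^ 4)) :
    False := by
  have hω : 0 < ω := by linarith
  have hω1 : ω ≤ 1 := by linarith
  have a0 : ω ^ 2 ≤ 1 := pow_le_one₀ hω.le hω1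
  have a1 : 0 ≤ ω ^ 2 / 2 - 5 / 96 * ω ^ 4 := by nlinarith [sq_nonneg ω]
  have a2 := mul_le_mul_of_nonneg_right ht' a1
  have htΦ : 0 < t1 * Φ := mul_pos ht hΦ
  have a3 : t1 * Φ * Ψ ≤ t1 * Φ * ω := mul_le_mul_of_nonneg_left h5 htΦ.le
  have a4 : ω * ω ≤ ω * (t1 * Φ / 8) := mul_le_mul_of_nonneg_left (by linarith) hω.le
  have a5 : t1 * Φ * (2 * Φ) ≤ t1 * Φ * ω := mul_le_mul_of_nonneg_left (by linarith) htΦ.le
  have a6 : ω ^ 3 ≤ (2 * Ψ) ^ 3 := pow_le_pow_left₀ hω.le h6 3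
  have a7 : t1 * ω * ω ^ 3 ≤ t1 * ω * (2 * Φ) :=
    mul_le_mul_of_nonneg_left (by nlinarith) (mul_pos ht hω).le
  have a8 : 0 < t1 * Φ * ω := mul_pos htΦ hω
  nlinarith

theorem excl_stmt : ExclStmt := by
  intro σ ε δ Φ Ψ t1 U ω ω' u u' h0 hL hε hε2 hδ hδ1 hΦ h2 hΨ ht hεt h16 h4 hE h128 h5 h6 h5' h6'
    hu' huu hU hc' hc
  have hfront : ‖σ (t1 + u') + 1‖ ≤ t1 + u' := by
    have := hL (t1 + u') 0
    rwa [h0, Complex.dist_eq, sub_neg_eq_add, sub_zero, abs_of_nonneg (by linarith)] at this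
  have hlip : ‖σ (t1 + u) - σ (t1 + u')‖ ≤ u - u' := by
    have := hL (t1 + u) (t1 + u')
    rwa [Complex.dist_eq, add_sub_add_left_eq_sub, abs_of_nonneg (by linarith)] at this
  generalize σ (t1 + u') = z' at hfront hlip hc'
  generalize σ (t1 + u) = z at hlip hc
  have hpi := Real.pi_gt_three
  have him : z'.im ≤ 0 := by
    have b1 := rot_Excl hc'
    have b2 := re_Excl z' ((1 - ε) * t1) (-ω') (-Φ)
    have b3 := im_Excl z' ((1 - ε) * t1) (-ω') (-Φ)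
    have b4 := (re_mul_cis_le (z' + 1) (- -ω')).trans hfront
    rw [b2, Real.cos_neg, show -ω' - -Φ = -(ω' - Φ) by ring, Real.cos_neg] at b4
    rw [Real.sin_neg, Real.sin_neg, Real.cos_neg] at b3
    generalize ((z' - (((1 - ε) * t1 : ℝ) : ℂ) * cis (-Φ)) * cis (- -ω')).re = X at b1 b3 b4
    generalize ((z' - (((1 - ε) * t1 : ℝ) : ℂ) * cis (-Φ)) * cis (- -ω')).im = Y at b1 b3
    have b5 := cos_Excl (Φ := Φ) ω' hε hε2 ht hεt
    have b6 : ω' ^ 2 ≤ (2 * Ψ) ^ 2 := pow_le_pow_left₀ (by linarith) h6' 2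
    have b7 : (ω' - Φ) ^ 2 ≤ (2 * Ψ) ^ 2 := pow_le_pow_left₀ (by linarith) (by linarith) 2
    have b8 := mul_le_mul_of_nonneg_left b7 ht.le
    have b9 : ε * u' ≤ ε * U := mul_le_mul_of_nonneg_left (by linarith) hε.le
    have b10 : 0 ≤ ε * u' := mul_nonneg hε.le hu'
    have b11 : 0 ≤ 2 * Ψ ^ 2 * (1 + t1) := by positivity
    have b12 : Y ^ 2 ≤ 2 * (2 * Ψ ^ 2 * (1 + t1) + ε * U) :=
      sq_Excl (by linarith) (by linarith) (by linarith) (by linarith) b1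
    have htΦ : 0 < t1 * Φ := mul_pos ht hΦ
    have b13 : |Y| ≤ t1 * Φ / 8 := abs_le.2 (abs_le_of_sq_le_sq' (by linarith) (by linarith))
    have b14 : Y * Real.cos ω' ≤ t1 * Φ / 8 := by
      refine (le_abs_self _).trans ?_
      rw [abs_mul]
      exact (mul_le_of_le_one_right (abs_nonneg _) (Real.abs_cos_le_one _)).trans b13
    have b15 : (1 - ε) * u' - X < 1 - δ :=
      lt_of_pow_lt_pow_left₀ 2 (by linarith)
        (lt_of_le_of_lt (le_add_of_nonneg_right (sq_nonneg _)) b1)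
    have b16 : 0 ≤ (1 - ε) * u' := mul_nonneg (by linarith) hu'
    have b17 : 0 ≤ Real.sin ω' := Real.sin_nonneg_of_nonneg_of_le_pi (by linarith) (by linarith)
    have b18 : Real.sin ω' ≤ ω' := Real.sin_le (by linarith)
    have b19 : -X * Real.sin ω' ≤ 1 * Real.sin ω' := mul_le_mul_of_nonneg_right (by linarith) b17
    have b20 : Φ / 2 ≤ Real.sin Φ := by
      have := Real.sin_gt_sub_cube hΦ
      have h3 : Φ ^ 2 ≤ 1 := pow_le_one₀ hΦ.le (by linarith)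
      nlinarith
    have b21 : 1 / 2 * t1 * (Φ / 2) ≤ (1 - ε) * t1 * Real.sin Φ :=
      mul_le_mul (mul_le_mul_of_nonneg_right (by linarith) ht.le) b20 (by linarith)
        (mul_nonneg (by linarith) ht.le)
    linarith
  have c1 := rot_Excl hc
  have c2 := re_Excl z ((1 - ε) * t1) ω Φ
  generalize ((z - (((1 - ε) * t1 : ℝ) : ℂ) * cis Φ) * cis (-ω)).re = X at c1 c2
  have c3 : (1 - ε) * u - X < 1 - δ :=
    lt_of_pow_lt_pow_left₀ 2 (by linarith) (lt_of_le_of_lt (le_add_of_nonneg_right (sq_nonneg _)) c1)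
  have c4 := cos_Excl (Φ := Φ) ω hε hε2 ht hεt
  have c5 := (re_mul_cis_le (z - z') (-ω)).trans hlip
  have c6 : ((z - z') * cis (-ω)).re = ((z + 1) * cis (-ω)).re - ((z' + 1) * cis (-ω)).re := by
    rw [← Complex.sub_re]
    congr 1
    ring
  have c7 : ((z' + 1) * cis (-ω)).re = (z' + 1).re * Real.cos ω + z'.im * Real.sin ω := by
    simp only [Complex.mul_re, Complex.add_im, Complex.one_im, cis_re, cis_im, Real.cos_neg,
      Real.sin_neg]
    ring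
  have c8 : (z' + 1).re ≤ t1 + u' := (Complex.re_le_norm _).trans hfront
  have c9 : 0 ≤ Real.sin ω := Real.sin_nonneg_of_nonneg_of_le_pi (by linarith) (by linarith)
  have c10 : 0 ≤ Real.cos ω := Real.cos_nonneg_of_mem_Icc ⟨by linarith, by linarith⟩
  have c11 := mul_le_mul_of_nonneg_right c8 c10
  have c12 := mul_nonpos_of_nonpos_of_nonneg him c9
  have c13 := mul_le_mul_of_nonneg_left
    (cos_le_of_abs_le_one (x := ω) (abs_le.2 ⟨by linarith, by linarith⟩))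
    (show 0 ≤ t1 + u' by linarith)
  have c14 : ε * u ≤ ε * U := mul_le_mul_of_nonneg_left hU hε.le
  exact fin_Excl (t' := t1 + u') hΦ h2 hΨ ht h16 h4 hE h5 h6 (by linarith) (by linarith)

end Pool.Agent.MP_66a317_pr.Fast
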