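import Pool.Agent.MP_66a317_pr.Fast.Basic

open MeasureTheory Set Filter
open scoped ENNReal

namespace Pool.Agent.MP_66a317_pr.Fast

theorem main_stmt (hS : ScaleStmt) (hU : UpFanStmt) (hJ : UpJumpStmt) (hL : LowStmt) :
    MainStmt := by
  intro η0 hη0
  set η := min η0 1 / 2 with hηd
  have hη : 0 < η := by
    have : 0 < min η0 1 := lt_min hη0 one_pos
    positivity
  have hη1 : η ≤ 1 / 2 := by
    have := min_le_right η0 1
    linarith
  have hη2 : 2 * η ≤ η0 := by
    have := min_le_left η0 1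
    linarith
  obtain ⟨K, hK, hJ'⟩ := hJ η hη
  obtain ⟨L0, hL0⟩ := eventually_atTop.1
    (((hU η hη (by linarith)).and (hL η hη (by linarith))).and (hJ'.and (eventually_gt_atTop 0)))
  refine ⟨K, min (Real.exp (-L0)) 1, hK, lt_min (Real.exp_pos _) one_pos, ?_⟩
  intro r w A hr hrA hw hw1 hKd
  have hA : 0 < ‖A‖ := hr.trans hrA
  have hA0 : A ≠ 0 := norm_pos_iff.1 hA
  have hε : 0 < 1 - w := by linarith
  have hw0 : 0 ≤ w := by
    have := min_le_right (Real.exp (-L0)) 1
    linarith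
  set L := Real.log (1 / (1 - w)) with hLd
  have hexp : Real.exp (-L) = 1 - w := by
    rw [hLd, one_div, Real.log_inv, neg_neg, Real.exp_log hε]
  have hLL : L0 ≤ L := by
    have h1 := min_le_left (Real.exp (-L0)) 1
    have h2 : Real.exp (-L) ≤ Real.exp (-L0) := by linarith
    have := Real.exp_le_exp.1 h2
    linarith
  obtain ⟨⟨hu, hl⟩, hj, hLpos⟩ := hL0 L hLL
  set δ := 1 - r / ‖A‖ with hδd
  have hδ : 0 < δ := by
    have : r / ‖A‖ < 1 := (div_lt_one hA).2 hrA
    linarith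
  have hwe : 1 - Real.exp (-L) = w := by linarith
  rw [hwe] at hu hl hj
  rw [hexp] at hu hl hj
  have hv : value r w A = value (1 - δ) w (-1) := by
    rw [hS.1 r w A hA0, hδd, sub_sub_cancel]
  rw [hv]
  set θ := L / 2 * √((1 - w) / δ) with hθd
  have hθ : 0 < θ := by
    have : 0 < √((1 - w) / δ) := Real.sqrt_pos.2 (div_pos hε hδ)
    positivity
  have hθ2 : θ ^ 2 = L ^ 2 / 4 * ((1 - w) / δ) := by
    rw [hθd, mul_pow, Real.sq_sqrt (div_pos hε hδ).le]
    ring
  have hδθ : δ = (1 - w) * L ^ 2 / (4 * θ ^ 2) := by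
    rw [hθ2]
    field_simp
  have hcmp : ∀ x y : ℝ, 0 < x → x ≤ y →
      (1 - w) * L ^ 2 / (4 * y ^ 2) ≤ (1 - w) * L ^ 2 / (4 * x ^ 2) := by
    intro x y hx hxy
    have : x ^ 2 ≤ y ^ 2 := by gcongr
    gcongr
  have hfin : value (1 - δ) w (-1) ≠ ⊤ :=
    ((value_le_one' (1 - δ) hw0 (-1)).trans_lt ENNReal.one_lt_top).ne
  have key : ∀ a b : ℝ, 0 ≤ b → ENNReal.ofReal a ≤ value (1 - δ) w (-1) →
      value (1 - δ) w (-1) ≤ ENNReal.ofReal b →
      a ≤ (value (1 - δ) w (-1)).toReal ∧ (value (1 - δ) w (-1)).toReal ≤ b := by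
    intro a b hb h1 h2
    exact ⟨(ENNReal.ofReal_le_iff_le_toReal hfin).1 h1, ENNReal.toReal_le_of_le_ofReal hb h2⟩
  rw [abs_le]
  rcases le_total θ η with h1 | h1
  · have h2 : value (1 - δ) w (-1) ≤ ENNReal.ofReal (η / 2 + η) := by
      refine (hS.2 _ _ w (-1) ?_).trans (hu η le_rfl (by linarith))
      have := hcmp θ η hθ h1
      linarith
    obtain ⟨a1, a2⟩ := key 0 _ (by positivity) (by simp) h2
    rw [min_eq_right (by linarith)]
    constructor <;> linarith
  rcases le_total θ 1 with h3 | h3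
  · have h2 := hu θ h1 h3
    have h4 := hl θ h1 h3
    rw [← hδθ] at h2 h4
    obtain ⟨a1, a2⟩ := key _ _ (by positivity) h4 h2
    rw [min_eq_right h3]
    constructor <;> linarith
  · have h2 : value (1 - δ) w (-1) ≤ ENNReal.ofReal (1 / 2 + η) := by
      refine (hS.2 _ _ w (-1) ?_).trans hj
      nlinarith
    have h4 : ENNReal.ofReal (1 / 2 - η) ≤ value (1 - δ) w (-1) := by
      refine (hl 1 (by linarith) le_rfl).trans (hS.2 _ _ w (-1) ?_)
      have := hcmp 1 θ one_pos h3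
      linarith
    obtain ⟨a1, a2⟩ := key _ _ (by positivity) h4 h2
    rw [min_eq_left h3]
    constructor <;> linarith

end Pool.Agent.MP_66a317_pr.Fast
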