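import Pool.Agent.MP_66a317_pr.Fast.Basic

open MeasureTheory Set Filter
open scoped ENNReal

namespace Pool.Agent.MP_66a317_pr.Fast

lemma term1_UpFan {ν θ L x μ N : ℝ} (hν : 0 < ν) (hν1 : ν ≤ 1 / 20) (hθ : 0 < θ) (hθ1 : θ ≤ 1)
    (hL : 0 < L) (hx : x = L / (2 * θ)) (hμ : 0 < μ) (hN : N ≤ L * (1 + ν) / (2 * ν) + 1) :
    (N * ν + 1) * μ / (1 - ν) ^ 2 / (2 * ((1 - ν) * μ * x)) ≤ θ / 2 + 5 * ν / 2 + 2 / L := by
  have h1 : 0 < 1 - ν := by linarith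
  have h2 : N * ν + 1 ≤ (1 + ν) * (L / 2 + 1) := by
    have h3 : N * ν ≤ (L * (1 + ν) / (2 * ν) + 1) * ν := mul_le_mul_of_nonneg_right hN hν.le
    have h4 : (L * (1 + ν) / (2 * ν) + 1) * ν = L * (1 + ν) / 2 + ν := by field_simp
    nlinarith
  have h5 : 1 + ν ≤ (1 + 5 * ν) * (1 - ν) ^ 3 := by
    have h6 : 1 - 3 * ν ≤ (1 - ν) ^ 3 := by nlinarith [mul_pos hν hν]
    nlinarith [mul_le_mul_of_nonneg_left h6 (show 0 ≤ 1 + 5 * ν by linarith)]
  have e : (N * ν + 1) * μ / (1 - ν) ^ 2 / (2 * ((1 - ν) * μ * x)) =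
      (N * ν + 1) * θ / ((1 - ν) ^ 3 * L) := by
    rw [hx]
    field_simp
  rw [e, div_le_iff₀ (by positivity)]
  have h7 : (N * ν + 1) * θ ≤ (1 + 5 * ν) * (1 - ν) ^ 3 * (L / 2 + 1) * θ :=
    mul_le_mul_of_nonneg_right
      (h2.trans (mul_le_mul_of_nonneg_right h5 (by positivity))) hθ.le
  have h8 : (1 + 5 * ν) * (L / 2 + 1) * θ ≤ (θ / 2 + 5 * ν / 2 + 2 / L) * L := by
    have h9 : (θ / 2 + 5 * ν / 2 + 2 / L) * L = θ * L / 2 + 5 * ν * L / 2 + 2 := by field_simp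
    rw [h9]
    have h10 : ν * L * θ ≤ ν * L := mul_le_of_le_one_right (by positivity) hθ1
    have h11 : ν * θ ≤ ν := mul_le_of_le_one_right hν.le hθ1
    nlinarith
  calc (N * ν + 1) * θ ≤ (1 - ν) ^ 3 * ((1 + 5 * ν) * (L / 2 + 1) * θ) := by linarith
    _ ≤ (1 - ν) ^ 3 * ((θ / 2 + 5 * ν / 2 + 2 / L) * L) :=
        mul_le_mul_of_nonneg_left h8 (by positivity)
    _ = _ := by ring

lemma term2_UpFan {ν L x s Φ N : ℝ} (hν : 0 < ν) (hL : 0 < L) (hx : L / 2 ≤ x) (hs : 0 < s)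
    (hΦ : s * x ≤ Φ) (hN : N ≤ L / ν) :
    2 * N * (4 * s / (ν * x)) / (2 * Φ) ≤ 16 / ν ^ 2 / L := by
  have hx0 : 0 < x := by linarith
  calc 2 * N * (4 * s / (ν * x)) / (2 * Φ) ≤ 2 * (L / ν) * (4 * s / (ν * x)) / (2 * (s * x)) := by
        have : 0 < Φ := lt_of_lt_of_le (by positivity) hΦ
        gcongr
    _ = 4 * L / ν ^ 2 / (x * x) := by field_simp
    _ ≤ 4 * L / ν ^ 2 / (L / 2 * (L / 2)) := by gcongr
    _ = 16 / ν ^ 2 / L := by field_simp; ring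

lemma term3_UpFan {L x s Φ a P K : ℝ} (hL : 0 < L) (hx : L / 2 ≤ x) (hs : 0 < s)
    (hΦ : s * x ≤ Φ) (ha : 1 ≤ a) (hP : s⁻¹ ≤ P) (hK : 0 ≤ K) :
    K / (a * P) / (2 * Φ) ≤ K / L := by
  have hx0 : 0 < x := by linarith
  calc K / (a * P) / (2 * Φ) ≤ K / (1 * s⁻¹) / (2 * (s * (L / 2))) := by
        have h1 : s * (L / 2) ≤ Φ := (mul_le_mul_of_nonneg_left hx hs.le).trans hΦ
        gcongr
    _ = K / L := by field_simp

lemma pow_UpFan {ν L : ℝ} (hν : 0 < ν) {N : ℕ} (hN : L * (1 + ν) / (2 * ν) ≤ N) :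
    (Real.exp (-L / 2))⁻¹ ≤ (1 + ν) ^ N := by
  have h0 : 0 < 1 + ν := by linarith
  have h1 : 1 - (1 + ν)⁻¹ ≤ Real.log (1 + ν) := Real.one_sub_inv_le_log_of_pos h0
  have h2 : 1 - (1 + ν)⁻¹ = ν / (1 + ν) := by field_simp; ring
  rw [← Real.exp_neg, ← Real.exp_log (pow_pos h0 N), Real.log_pow, Real.exp_le_exp]
  calc -(-L / 2) = L * (1 + ν) / (2 * ν) * (ν / (1 + ν)) := by field_simp
    _ ≤ N * (ν / (1 + ν)) := mul_le_mul_of_nonneg_right hN (by positivity)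
    _ ≤ N * Real.log (1 + ν) := mul_le_mul_of_nonneg_left (h2 ▸ h1) (Nat.cast_nonneg N)

lemma lim_UpFan : Tendsto (fun L : ℝ => Real.exp (-L / 2) * L) atTop (nhds 0) := by
  have h1 := ((Real.tendsto_pow_mul_exp_neg_atTop_nhds_zero 1).comp
    (tendsto_id.atTop_div_const (show (0 : ℝ) < 2 by norm_num))).const_mul 2
  rw [mul_zero] at h1
  refine h1.congr fun L => ?_
  simp only [Function.comp, id, pow_one, neg_div]
  ring

theorem upFan_stmt (h : UpFanCoreStmt) : UpFanStmt := by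
  intro η hη hη1
  obtain ⟨ν, hνd⟩ : ∃ ν : ℝ, ν = η / 20 := ⟨_, rfl⟩
  have hν : 0 < ν := by rw [hνd]; positivity
  have hν1 : ν ≤ 1 / 20 := by rw [hνd]; linarith
  obtain ⟨S, hS⟩ : ∃ S : ℝ, S = 48 / η := ⟨_, rfl⟩
  have hS1 : 1 ≤ S := by rw [hS, le_div_iff₀ hη]; linarith
  filter_upwards [eventually_ge_atTop 1, eventually_ge_atTop (4 / ν),
    eventually_ge_atTop (2 * (2 + 16 / ν ^ 2 + 8 * (1 + 2 * S)) / η),
    lim_UpFan.eventually (ge_mem_nhds (show 0 < η * ν / 6 by positivity))] with L hL1 hL2 hL3 hL4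
  intro θ hθη hθ1
  have hθ : 0 < θ := hη.trans_le hθη
  have hL : 0 < L := by linarith
  obtain ⟨s, hsd⟩ : ∃ s : ℝ, s = Real.exp (-L / 2) := ⟨_, rfl⟩
  have hs : 0 < s := by rw [hsd]; exact Real.exp_pos _
  have hε : Real.exp (-L) = s ^ 2 := by
    rw [hsd, ← Real.exp_nat_mul]
    congr 1
    push_cast
    ring
  rw [← hsd] at hL4
  obtain ⟨x, hx⟩ : ∃ x : ℝ, x = L / (2 * θ) := ⟨_, rfl⟩
  have hx1 : L / 2 ≤ x := by
    rw [hx]
    gcongr
    linarith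
  have hx0 : 0 < x := by linarith
  have hsx : s * x ≤ ν / 12 := by
    calc s * x = s * L / (2 * θ) := by rw [hx]; ring
      _ ≤ η * ν / 6 / (2 * η) := by gcongr
      _ = ν / 12 := by field_simp; ring
  have hsx0 : 0 < s * x := by positivity
  have hs1 : s ≤ ν / 6 := by
    have h1 : s * 1 ≤ s * L := mul_le_mul_of_nonneg_left hL1 hs.le
    have h2 : η * ν ≤ ν := mul_le_of_le_one_left hν.le hη1
    linarith
  have hνx : 2 ≤ ν * x := by
    have h1 : 4 ≤ L * ν := (div_le_iff₀ hν).1 hL2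
    nlinarith [mul_le_mul_of_nonneg_left hx1 hν.le]
  have ha : 1 / (ν * x ^ 2) ≤ ν / 2 := by
    rw [div_le_iff₀ (by positivity)]
    nlinarith
  have ha1 : 1 ≤ ν * x ^ 2 := by
    have h1 : 2 * 20 ≤ x := by nlinarith
    nlinarith
  obtain ⟨μ, hμd⟩ : ∃ μ : ℝ, μ = √(2 * s ^ 2) := ⟨_, rfl⟩
  have hμ : 0 < μ := by rw [hμd]; positivity
  have hμ2 : μ ^ 2 = 2 * s ^ 2 := by rw [hμd]; exact Real.sq_sqrt (by positivity)
  have hμl : 4 / 3 * s ≤ μ := by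
    refine abs_le_of_sq_le_sq' ?_ hμ.le |>.2
    nlinarith
  have hμu : μ ≤ 2 * s := by
    refine abs_le_of_sq_le_sq' ?_ (by positivity) |>.2
    nlinarith
  have hΦl : s * x ≤ (1 - ν) * μ * x := by
    refine mul_le_mul_of_nonneg_right ?_ hx0.le
    nlinarith
  have hΦu : (1 - ν) * μ * x ≤ 2 * (s * x) := by
    have : (1 - ν) * μ ≤ 2 * s := by nlinarith
    nlinarith
  have hD : 4 * s / (ν * x) ≤ 4 * (s * x) := by
    rw [div_le_iff₀ (by positivity)]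
    nlinarith
  obtain ⟨N, hNd⟩ : ∃ N : ℕ, N = ⌈L * (1 + ν) / (2 * ν)⌉₊ := ⟨_, rfl⟩
  have hN1 : L * (1 + ν) / (2 * ν) ≤ N := by rw [hNd]; exact Nat.le_ceil _
  have hN2 : (N : ℝ) ≤ L * (1 + ν) / (2 * ν) + 1 := by
    rw [hNd]; exact (Nat.ceil_lt_add_one (by positivity)).le
  have hN0 : 0 < N := by rw [hNd]; exact Nat.ceil_pos.2 (by positivity)
  have hN3 : (N : ℝ) ≤ L / ν := by
    refine hN2.trans ?_
    rw [div_add_one (by positivity), div_le_div_iff₀ (by positivity) hν]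
    nlinarith [mul_le_mul_of_nonneg_left hL1 hν.le, mul_pos hν hν]
  have hδ : s ^ 2 * L ^ 2 / (4 * θ ^ 2) = (s * x) ^ 2 := by rw [hx]; field_simp; ring
  have hq : 0 < (s * x) ^ 2 := by positivity
  have key := h (s ^ 2) ((s * x) ^ 2) ((1 - ν / 2) * (s * x) ^ 2) ((1 - ν) * μ * x) (ν * x ^ 2)
    (1 + ν) ν (4 * s / (ν * x)) S N (by positivity) (mul_pos (by linarith) hq) (by nlinarith)
    (by nlinarith) (hsx0.trans_le hΦl) (by positivity)
    (by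
      have e : ((1 - ν) * μ * x) ^ 2 / 2 = (1 - ν) ^ 2 * (s * x) ^ 2 := by
        rw [mul_pow, mul_pow, hμ2]; ring
      have e2 : s ^ 2 * (ν * x ^ 2) = ν * (s * x) ^ 2 := by ring
      rw [e, e2]
      have : ν ≤ (1 - ν / 2) - (1 - ν) ^ 2 := by nlinarith
      nlinarith [mul_le_mul_of_nonneg_right this hq.le])
    (by linarith) (by linarith) (by nlinarith) (by positivity)
    (by
      have e : (4 * s / (ν * x)) ^ 2 = 2 / ν * (8 * (s ^ 2 / (ν * x ^ 2))) := by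
        field_simp; ring
      rw [e]
      refine le_mul_of_one_le_left (by positivity) ?_
      rw [le_div_iff₀ hν]
      linarith)
    (by
      have h1 : 2 * ((1 - ν) * μ * x) + 2 * (4 * s / (ν * x)) ≤ ν := by linarith
      have h2 : 0 ≤ 2 * ((1 - ν) * μ * x) + 2 * (4 * s / (ν * x)) := by
        have := hsx0.trans_le hΦl
        positivity
      nlinarith)
    hN0 hS1
  rw [hε, hδ]
  refine key.trans (ENNReal.ofReal_le_ofReal ?_)
  rw [← hμd, add_sub_cancel_left, add_div, add_div]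
  have t1 := term1_UpFan hν hν1 hθ hθ1 hL hx hμ hN2
  have t2 := term2_UpFan hν hL hx1 hs hΦl hN3
  have t3 := term3_UpFan (K := 8 * (1 + 2 * S)) hL hx1 hs hΦl ha1
    (hsd ▸ pow_UpFan hν hN1) (by positivity)
  have t4 : 12 / S = η / 4 := by rw [hS]; field_simp; ring
  have t5 : 2 / L + 16 / ν ^ 2 / L + 8 * (1 + 2 * S) / L ≤ η / 2 := by
    rw [← add_div, ← add_div, div_le_iff₀ hL]
    have := (div_le_iff₀ hη).1 hL3
    linarith
  linarith

end Pool.Agent.MP_66a317_pr.Fast
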