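import Pool.Agent.MP_66a317_pr.Fast.Basic

open MeasureTheory Set Filter
open scoped ENNReal

namespace Pool.Agent.MP_66a317_pr.Fast

theorem fin_UpJump {η x s S n P : ℝ} (hx : 80 ≤ x) (hs : 0 < s) (hS : 1 ≤ S) (hn0 : 0 ≤ n)
    (h1 : 200 * (2 + 2 * S) ≤ η * x) (hP : 1 ≤ s * P) (hn : n ≤ η / 1000 * x ^ 2) :
    (4 * (n * √(2 * s ^ 2) + (4 * (s * x ^ 2 / 40) ^ 2 * (1 + x ^ 2 / 2) / (x ^ 5 / 160) +
      2 * s ^ 2) / √(2 * s ^ 2)) + 2 * n * (13 * s / x ^ 2) +
      8 * (1 + 2 * S) / (x ^ 5 / 160 * P)) / (s * x ^ 2 / 40) ≤ 3 * η / 4 := by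
  have x0 : 0 < x := by linarith
  have x2 : 6400 ≤ x ^ 2 := by nlinarith
  have r1 : s ≤ √(2 * s ^ 2) := Real.le_sqrt_of_sq_le (by nlinarith)
  have r2 : √(2 * s ^ 2) ≤ 3 / 2 * s := Real.sqrt_le_iff.2 ⟨by positivity, by nlinarith⟩
  have P0 : 0 < P := by
    by_contra h
    nlinarith
  have a1 := mul_le_mul_of_nonneg_left r2 hn0
  have a2 : (4 * (s * x ^ 2 / 40) ^ 2 * (1 + x ^ 2 / 2) / (x ^ 5 / 160) + 2 * s ^ 2) /
      √(2 * s ^ 2) ≤ s * x / 4 := by
    rw [div_le_iff₀ (by linarith)]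
    refine le_trans ?_ (mul_le_mul_of_nonneg_left r1 (by positivity))
    have e : 4 * (s * x ^ 2 / 40) ^ 2 * (1 + x ^ 2 / 2) / (x ^ 5 / 160) =
        s ^ 2 * (2 / 5 * x⁻¹ + x / 5) := by field_simp; ring
    have : x⁻¹ ≤ 1 := inv_le_one_of_one_le₀ (by linarith)
    rw [e]
    nlinarith [mul_nonneg (sq_nonneg s) (show 0 ≤ x / 20 - 2 - 2 / 5 * x⁻¹ by linarith)]
  have a3 : 2 * n * (13 * s / x ^ 2) ≤ n * s := by
    have : 13 * s / x ^ 2 ≤ s / 2 := by
      rw [div_le_iff₀ (by positivity)]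
      nlinarith
    nlinarith
  have a4 : 8 * (1 + 2 * S) / (x ^ 5 / 160 * P) ≤ (1 + 2 * S) * (s * x) := by
    rw [div_le_iff₀ (by positivity)]
    have b1 : 8 ≤ x ^ 6 / 160 := by
      have := pow_le_pow_left₀ (by norm_num) x2 3
      nlinarith
    have b2 : 8 * 1 ≤ x ^ 6 / 160 * (s * P) := mul_le_mul b1 hP zero_le_one (by positivity)
    nlinarith [mul_le_mul_of_nonneg_left b2 (show 0 ≤ 1 + 2 * S by linarith)]
  have a5 := mul_le_mul_of_nonneg_right hn hs.le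
  have a6 := mul_le_mul_of_nonneg_right h1 (mul_pos hs x0).le
  have a7 : 0 ≤ η * x * (s * x) := mul_nonneg (by linarith) (by positivity)
  rw [div_le_iff₀ (by positivity)]
  nlinarith

theorem par_UpJump (h : UpJumpCoreStmt) {η x s : ℝ} {N : ℕ} (hη : 0 < η) (hx : 80 ≤ x) (hs : 0 < s)
    (h1 : 200 * (2 + 2 * (1 + 48 / η)) ≤ η * x) (h2 : x ^ 3 * s ≤ 1) (hP : 1 ≤ s * 2 ^ N)
    (hn : (N : ℝ) ≤ η / 1000 * x ^ 2) (hN : 0 < N) :
    value (1 - 2 * x ^ 2 * s ^ 2) (1 - s ^ 2) (-1) ≤ ENNReal.ofReal (1 / 2 + η) := by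
  have x0 : 0 < x := by linarith
  have x2 : 6400 ≤ x ^ 2 := by nlinarith
  have s2 : x ^ 2 * s ≤ 1 / 80 := by nlinarith [mul_pos (pow_pos x0 2) hs]
  have s1 : x * s ≤ 1 / 80 := by nlinarith [mul_pos x0 hs]
  have s0 : s ≤ 1 / 80 := by nlinarith
  have p1 := mul_pos x0 hs
  have p2 := mul_pos (pow_pos x0 2) hs
  have hS : 1 ≤ 1 + 48 / η := le_add_of_nonneg_right (by positivity)
  have D1 : 13 * s / x ^ 2 ≤ s := by
    rw [div_le_iff₀ (by positivity)]
    nlinarith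
  have D0 : 0 ≤ 13 * s / x ^ 2 := by positivity
  refine (h (s ^ 2) (2 * x ^ 2 * s ^ 2) (x ^ 2 * s ^ 2) (x * s) (s * x ^ 2 / 40) (x ^ 2 / 2)
    (x ^ 5 / 160) (13 * s / x ^ 2) (1 + 48 / η) N (by positivity) (by nlinarith) (by positivity)
    (by nlinarith) (by nlinarith) p1 (by nlinarith) (by linarith) (by positivity)
    (le_of_eq (by ring)) (by nlinarith) ?_ (le_of_eq (by ring)) ?_ (by positivity) ?_ D0 ?_
    (by nlinarith) hN hS).trans (ENNReal.ofReal_le_ofReal ?_)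
  · have := pow_le_one₀ (n := 2) (by positivity) h2
    nlinarith [mul_le_mul_of_nonneg_left this hs.le]
  · have : 0 ≤ (x ^ 2 * s) ^ 2 * (17 / 100 * x ^ 2 - 4 / 5 * x - 4 / 25) :=
      mul_nonneg (sq_nonneg _) (by nlinarith)
    nlinarith
  · have : 1 / (x ^ 5 / 160) ≤ 1 / 4 := one_div_le_one_div_of_le (by norm_num) (by
      have := pow_le_pow_left₀ (by norm_num) hx 5
      linarith)
    nlinarith
  · have e : 8 * (2 * (s * x ^ 2 / 40) ^ 2 * (1 + x ^ 2 / 2) / (x ^ 5 / 160) ^ 2 +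
        s ^ 2 / (x ^ 5 / 160)) = (s / x ^ 2) ^ 2 * (256 / x ^ 2 + 128 + 1280 / x) := by
      field_simp
      ring
    have b1 : 256 / x ^ 2 ≤ 1 := (div_le_one (by positivity)).2 (by linarith)
    have b2 : 1280 / x ≤ 16 := (div_le_iff₀ x0).2 (by linarith)
    rw [e, mul_div_assoc, mul_pow, mul_comm]
    exact mul_le_mul_of_nonneg_right (by linarith) (sq_nonneg _)
  · have b1 := fin_UpJump hx hs hS N.cast_nonneg h1 hP hn
    have b2 : 12 / (1 + 48 / η) ≤ η / 4 := by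
      rw [div_le_iff₀ (by positivity), mul_add, div_mul_div_comm, mul_comm η, mul_div_mul_right _ _ hη.ne']
      linarith
    linarith

theorem upJump_stmt (h : UpJumpCoreStmt) : UpJumpStmt := by
  intro η hη
  refine ⟨4000 / η, by positivity, ?_⟩
  have k0 : 0 < 2000 / η := by positivity
  have t1 : Tendsto (fun L : ℝ => √(2000 / η * L)) atTop atTop :=
    Real.tendsto_sqrt_atTop.comp (tendsto_id.const_mul_atTop k0)
  have t2 := (Real.tendsto_pow_mul_exp_neg_atTop_nhds_zero 3).const_mul ((2000 / η) ^ 3)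
  rw [mul_zero] at t2
  filter_upwards [eventually_ge_atTop 1, t1.eventually_ge_atTop 80,
    (t1.const_mul_atTop hη).eventually_ge_atTop (200 * (2 + 2 * (1 + 48 / η))),
    t2.eventually (ge_mem_nhds one_pos)] with L l1 l2 l3 l4
  have e1 : √(2000 / η * L) ^ 2 = 2000 / η * L := Real.sq_sqrt (by positivity)
  have e2 : Real.exp (-L / 2) ^ 2 = Real.exp (-L) := by
    rw [← Real.exp_nat_mul]
    congr 1
    push_cast
    ring
  have n1 := Nat.le_ceil L
  have n2 := Nat.ceil_lt_add_one (show 0 ≤ L by linarith)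
  have key := par_UpJump h (N := ⌈L⌉₊) hη l2 (Real.exp_pos (-L / 2)) l3 (by
      refine (sq_le_one_iff₀ (by positivity)).1 (le_trans (le_of_eq ?_) l4)
      rw [mul_pow, e2, ← pow_mul, mul_comm 3, pow_mul, e1]
      ring) (by
      have : Real.exp (1 / 2) ≤ 2 := by
        rw [← Real.le_log_iff_exp_le two_pos]
        linarith [Real.log_two_gt_d9]
      refine le_trans ?_ (mul_le_mul_of_nonneg_left
        (pow_le_pow_left₀ (Real.exp_pos _).le this _) (Real.exp_pos _).le)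
      rw [← Real.exp_nat_mul, ← Real.exp_add]
      exact Real.one_le_exp (by linarith)) (by
      have : η / 1000 * (2000 / η * L) = 2 * L := by
        field_simp
        ring
      rw [e1, this]
      linarith) (Nat.ceil_pos.2 (by linarith))
  rw [e1, e2] at key
  rwa [show 4000 / η * L = 2 * (2000 / η * L) by ring]

end Pool.Agent.MP_66a317_pr.Fast
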