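import Pool.Agent.MP_66a317_pr.Fast.Basic

open MeasureTheory Set Filter
open scoped ENNReal

namespace Pool.Agent.MP_66a317_pr.Fast

theorem front_UpJumpCore {σ : ℝ → ℂ} (h0 : σ 0 = -1) (hL : ∀ s t, dist (σ s) (σ t) ≤ |s - t|)
    {t : ℝ} (ht : 0 ≤ t) (x : ℝ) : (σ t * cis (-x)).re ≤ t - Real.cos x := by
  have h1 := re_mul_cis_le (σ t - σ 0) (-x)
  have h2 := hL t 0
  rw [Complex.dist_eq, sub_zero, abs_of_nonneg ht] at h2
  rw [sub_mul, Complex.sub_re, h0] at h1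
  have h3 : ((-1 : ℂ) * cis (-x)).re = -Real.cos x := by simp
  rw [h0] at h2
  linarith

theorem early_UpJumpCore {σ : ℝ → ℂ} (h0 : σ 0 = -1) (hL : ∀ s t, dist (σ s) (σ t) ≤ |s - t|)
    {ε δ x t t1 : ℝ} (hε : 0 < ε) (ht : 0 ≤ t) (ht1 : t ≤ t1) (h : ε * t1 ≤ δ - x ^ 2 / 2) :
    1 - δ ≤ dist (σ t) ((((1 - ε) * t : ℝ) : ℂ) * cis x) := by
  have h1 := front_UpJumpCore h0 hL ht x
  have h2 := re_mul_cis_le ((((1 - ε) * t : ℝ) : ℂ) * cis x - σ t) (-x)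
  rw [sub_mul, Complex.sub_re, mul_assoc, cis_mul_neg, mul_one, Complex.ofReal_re] at h2
  rw [dist_comm, Complex.dist_eq]
  have h3 := Real.one_sub_sq_div_two_le_cos (x := x)
  nlinarith [mul_le_mul_of_nonneg_left ht1 hε.le]

theorem fan_UpJumpCore (hF : FanStmt) {σ : ℝ → ℂ} (h0 : σ 0 = -1)
    (hL : ∀ s t, dist (σ s) (σ t) ≤ |s - t|) {ε δ Ψ t1 U D x : ℝ} {N : ℕ} {I : Set ℝ}
    (hε : 0 < ε) (hε2 : ε ≤ 1 / 2) (hδ : 0 < δ) (hδ1 : δ < 1) (ht1 : 0 < t1) (h1 : ε * t1 ≤ δ)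
    (hU : 0 < U) (h2 : ε + 1 / U ≤ 1 / 2) (hD : 0 ≤ D)
    (h3 : 8 * (2 * Ψ ^ 2 * (1 + t1) / U ^ 2 + ε / U) ≤ D ^ 2) (h4 : (4 * Ψ + 2 * D) ^ 2 ≤ 1 / 2)
    (hN : 0 < N) (hI : ∀ ω ∈ I, |ω| ≤ 2 * Ψ ∧ |x - ω| ≤ 2 * Ψ) :
    volume {ω | ω ∈ I ∧ ∃ u, U ≤ u ∧ u ≤ U * 2 ^ N ∧
      dist (σ (t1 + u)) ((((1 - ε) * t1 : ℝ) : ℂ) * cis x + (((1 - ε) * u : ℝ) : ℂ) * cis ω) <
        1 - δ} ≤ ENNReal.ofReal
      (4 * (N * √(2 * ε) + (4 * Ψ ^ 2 * (1 + t1) / U + 2 * ε) / √(2 * ε)) + 2 * N * D) := by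
  have key := hF (fun u => σ (t1 + u) - (((1 - ε) * t1 : ℝ) : ℂ) * cis x) (1 - δ) ε
    (2 * Ψ ^ 2 * (1 + t1)) U 2 (1 / 2) (2 * Ψ) D N I ?_ (by linarith) (by linarith) hε
    (by positivity) hU (by norm_num) le_rfl h2 hD h3 (by convert h4 using 2; ring) hN
    (fun ω hω => (hI ω hω).1) ?_
  · refine le_trans (le_of_eq ?_) (key.trans (le_of_eq ?_))
    · congr 1
      ext ω
      simp only [Set.mem_ofPred_eq, Complex.dist_eq, sub_sub]
    · congr 1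
      ring
  · intro s t
    have := hL (t1 + s) (t1 + t)
    rw [add_sub_add_left_eq_sub] at this
    rwa [dist_sub_right]
  · intro ω hω u hu
    obtain ⟨ha, hb⟩ := hI ω hω
    have f1 := front_UpJumpCore h0 hL (t := t1 + u) (by linarith) ω
    have f2 : ((((1 - ε) * t1 : ℝ) : ℂ) * cis x * cis (-ω)).re =
        (1 - ε) * t1 * Real.cos (x - ω) := by
      rw [mul_assoc, ← cis_add, Complex.re_ofReal_mul, cis_re, sub_eq_add_neg x ω]
    have c1 := Real.one_sub_sq_div_two_le_cos (x := ω)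
    have c2 := Real.one_sub_sq_div_two_le_cos (x := x - ω)
    have s1 : ω ^ 2 ≤ (2 * Ψ) ^ 2 := by
      rw [← sq_abs ω]
      exact pow_le_pow_left₀ (abs_nonneg _) ha 2
    have s2 : (x - ω) ^ 2 ≤ (2 * Ψ) ^ 2 := by
      rw [← sq_abs (x - ω)]
      exact pow_le_pow_left₀ (abs_nonneg _) hb 2
    have c3 : 1 - 2 * Ψ ^ 2 ≤ Real.cos (x - ω) := by nlinarith
    have hw : 0 ≤ (1 - ε) * t1 := mul_nonneg (by linarith) ht1.le
    have c4 := mul_le_mul_of_nonneg_left c3 hw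
    have c5 : 0 ≤ ε * t1 * Ψ ^ 2 := by positivity
    rw [sub_mul, Complex.sub_re, f2]
    nlinarith

theorem near_UpJumpCore (hN : NearStmt) {ε δ S ρ : ℝ} (hε2 : ε ≤ 1 / 2) (hδ : 0 < δ)
    (hS : 1 ≤ S) (hρ : 0 < ρ) (P z : ℂ) :
    volume {ω : ℝ | |ω| ≤ 1 ∧ dist z (P + (((1 - ε) * ρ : ℝ) : ℂ) * cis ω) < 1 - δ + 2 * S} ≤
      ENNReal.ofReal (8 * (1 + 2 * S) / ρ) := by
  have hw : 0 < (1 - ε) * ρ := mul_pos (by linarith) hρ
  refine (hN P z _ _ hw).trans (ENNReal.ofReal_le_ofReal ?_)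
  rw [div_le_div_iff₀ hw hρ]
  have h1 : 0 ≤ (1 + 2 * S) * ρ * (1 - 2 * ε) := by
    apply mul_nonneg (mul_nonneg (by linarith) hρ.le) (by linarith)
  nlinarith [mul_pos hδ hρ]

theorem conj_UpJumpCore (z : ℂ) (a b x y : ℝ) :
    dist ((starRingEnd ℂ) z) ((a : ℂ) * cis (-x) + (b : ℂ) * cis (-y)) =
      dist z ((a : ℂ) * cis x + (b : ℂ) * cis y) := by
  rw [← Complex.dist_conj_conj z]
  simp only [map_add, map_mul, Complex.conj_ofReal, conj_cis]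

theorem upJumpCore_stmt (hD : DisperseStmt) (hN : NearStmt) (hF : FanStmt) (hE : ExclStmt) :
    UpJumpCoreStmt := by
  intro ε δ δ' Φ Ψ t1 U D S N hε hε2 hδ' hδδ hδ1 hΦ hΦΨ hΨ ht1 h1 h2 h3 h4 h5 hU h6 hD0 h7 h8 hN0 hS
  have hΨ0 : 0 < Ψ := by linarith
  have h1' : ε * t1 ≤ δ' := by nlinarith [sq_nonneg Φ]
  have hw : 0 ≤ 1 - ε := by linarith
  have hρ : 0 < U * 2 ^ N := by positivity
  set F : ℝ := 4 * (N * √(2 * ε) + (4 * Ψ ^ 2 * (1 + t1) / U + 2 * ε) / √(2 * ε)) + 2 * N * D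
    with hFd
  have hF0 : 0 ≤ F := by positivity
  have hR : volume (Icc Ψ (2 * Ψ)) = ENNReal.ofReal Ψ := by
    rw [Real.volume_Icc]; congr 1; ring
  have hL' : volume (Icc (-(2 * Ψ)) (-Ψ)) = ENNReal.ofReal Ψ := by
    rw [Real.volume_Icc]; congr 1; ring
  let G : ℝ → ℝ → ℂ := fun ω t =>
    (((1 - ε) * min t t1 : ℝ) : ℂ) * cis (if 0 ≤ ω then Φ else -Φ) +
      (((1 - ε) * (max t t1 - t1) : ℝ) : ℂ) * cis ω
  have G1 : ∀ ω t, t ≤ t1 → G ω t =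
      (((1 - ε) * t : ℝ) : ℂ) * cis (if 0 ≤ ω then Φ else -Φ) := by
    intro ω t ht
    simp only [G, min_eq_left ht, max_eq_right ht, sub_self, mul_zero, Complex.ofReal_zero,
      zero_mul, add_zero]
  have G2 : ∀ ω u, 0 ≤ u → G ω (t1 + u) =
      (((1 - ε) * t1 : ℝ) : ℂ) * cis (if 0 ≤ ω then Φ else -Φ) +
        (((1 - ε) * u : ℝ) : ℂ) * cis ω := by
    intro ω u hu
    have : t1 ≤ t1 + u := by linarith
    simp only [G, min_eq_right this, max_eq_left this, add_sub_cancel_left]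
  have key := hD (1 - δ) (1 - δ') (1 - ε) (t1 + U * 2 ^ N) S (2 * Ψ) (Ψ + 2 * F)
    (2 * (8 * (1 + 2 * S) / (U * 2 ^ N))) (-1) (Icc Ψ (2 * Ψ) ∪ Icc (-(2 * Ψ)) (-Ψ)) G
    (by linarith) (by linarith) (by linarith) (by linarith) (by positivity) hS (by positivity)
    (by positivity) (by positivity) (measurableSet_Icc.union measurableSet_Icc) ?_ ?_ ?_ ?_ ?_
  · refine key.trans (le_of_eq ?_)
    congr 1
    field_simp
    ring
  · rw [measure_union ?_ measurableSet_Icc, hR, hL', ← ENNReal.ofReal_add hΨ0.le hΨ0.le, two_mul]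
    rw [Set.disjoint_left]
    intro x hx hy
    linarith [hx.1, hy.2]
  · intro ω _
    refine ⟨by rw [G1 ω 0 ht1.le]; simp, fun s t _ _ => ?_⟩
    refine (dist_add_add_le _ _ _ _).trans ?_
    rw [dist_mul_cis, dist_mul_cis, Complex.dist_eq, Complex.dist_eq, ← Complex.ofReal_sub,
      ← Complex.ofReal_sub, Complex.norm_real, Complex.norm_real, Real.norm_eq_abs,
      Real.norm_eq_abs, ← mul_sub, ← mul_sub, abs_mul, abs_mul, abs_of_nonneg hw, ← mul_add,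
      sub_sub_sub_cancel_right, abs_min_add_abs_max]
  · intro t
    refine Measurable.add (measurable_const.mul (continuous_cis.measurable.comp ?_))
      (measurable_const.mul continuous_cis.measurable)
    exact Measurable.ite measurableSet_Ici measurable_const measurable_const
  · intro σ h0 hL
    have fR := fan_UpJumpCore hF h0 hL (x := Φ) (I := Icc Ψ (2 * Ψ)) hε hε2 hδ' hδ1 ht1 h1' hU h6
      hD0 h7 h8 hN0 fun ω hω =>
        ⟨abs_le.2 ⟨by linarith [hω.1], hω.2⟩, abs_le.2 ⟨by linarith [hω.2], by linarith [hω.1]⟩⟩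
    have fL := fan_UpJumpCore hF h0 hL (x := -Φ) (I := Icc (-(2 * Ψ)) (-Ψ)) hε hε2 hδ' hδ1 ht1 h1'
      hU h6 hD0 h7 h8 hN0 fun ω hω =>
        ⟨abs_le.2 ⟨hω.1, by linarith [hω.2]⟩, abs_le.2 ⟨by linarith [hω.2], by linarith [hω.1]⟩⟩
    rw [← hFd] at fR fL
    have late : ∀ ω t, 0 ≤ t → t ≤ t1 + U * 2 ^ N → dist (σ t) (G ω t) < 1 - δ' →
        ∃ u, 0 ≤ u ∧ u ≤ U * 2 ^ N ∧ dist (σ (t1 + u))
          ((((1 - ε) * t1 : ℝ) : ℂ) * cis (if 0 ≤ ω then Φ else -Φ) +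
            (((1 - ε) * u : ℝ) : ℂ) * cis ω) < 1 - δ' := by
      intro ω t ht htT hd
      rcases le_total t t1 with h | h
      · rw [G1 ω t h] at hd
        refine absurd hd (not_lt.2 (early_UpJumpCore h0 hL hε ht h ?_))
        split_ifs
        · exact h1
        · rwa [neg_sq]
      · refine ⟨t - t1, by linarith, by linarith, ?_⟩
        rw [← G2 ω _ (by linarith), add_sub_cancel]
        exact hd
    have fin : ENNReal.ofReal Ψ + ENNReal.ofReal F ≤ ENNReal.ofReal (Ψ + 2 * F) := by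
      rw [← ENNReal.ofReal_add hΨ0.le hF0]
      exact ENNReal.ofReal_le_ofReal (by linarith)
    by_cases hc : ∃ ω ∈ Icc Ψ (2 * Ψ), ∃ u, 0 ≤ u ∧ u ≤ U ∧ dist (σ (t1 + u))
        ((((1 - ε) * t1 : ℝ) : ℂ) * cis Φ + (((1 - ε) * u : ℝ) : ℂ) * cis ω) < 1 - δ'
    · obtain ⟨ω, hω, u, hu0, hu, hd⟩ := hc
      refine le_trans (measure_mono ?_) ((measure_union_le _ _).trans
        ((add_le_add hR.le fL).trans fin))
      rintro ω' ⟨hω' | hω', t, ht, htT, hd'⟩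
      · exact Or.inl hω'
      · obtain ⟨u', hu0', hu', hd'⟩ := late ω' t ht htT hd'
        rw [if_neg (by linarith [hω'.2])] at hd'
        rcases le_total U u' with h | h
        · exact Or.inr ⟨hω', u', h, hu', hd'⟩
        · exfalso
          rcases le_total u' u with h' | h'
          · refine hE σ ε δ' Φ Ψ t1 U ω (-ω') u u' h0 hL hε hε2 hδ' hδ1 hΦ hΦΨ hΨ ht1 h1' h2 h3 h4
              h5 hω.1 hω.2 (by linarith [hω'.2]) (by linarith [hω'.1]) hu0' h' hu ?_ hd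
            rwa [neg_neg]
          · refine hE (fun s => (starRingEnd ℂ) (σ s)) ε δ' Φ Ψ t1 U (-ω') ω u' u (by simp [h0])
              (fun s t => by rw [Complex.dist_conj_conj]; exact hL s t) hε hε2 hδ' hδ1 hΦ hΦΨ hΨ
              ht1 h1' h2 h3 h4 h5 (by linarith [hω'.2]) (by linarith [hω'.1]) hω.1 hω.2 hu0 h' h
              ?_ ?_
            · rwa [conj_UpJumpCore]
            · rw [← conj_UpJumpCore, neg_neg] at hd'
              exact hd'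
    · refine le_trans (measure_mono ?_) ((measure_union_le _ _).trans
        ((add_le_add hL'.le fR).trans fin))
      rintro ω ⟨hω | hω, t, ht, htT, hd⟩
      · obtain ⟨u, hu0, hu, hd⟩ := late ω t ht htT hd
        rw [if_pos (by linarith [hω.1])] at hd
        rcases le_total U u with h | h
        · exact Or.inr ⟨hω, u, h, hu, hd⟩
        · exact absurd ⟨ω, hω, u, hu0, h, hd⟩ hc
      · exact Or.inl hω
  · intro z
    have nR := near_UpJumpCore hN hε2 hδ' hS hρ ((((1 - ε) * t1 : ℝ) : ℂ) * cis Φ) z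
    have nL := near_UpJumpCore hN hε2 hδ' hS hρ ((((1 - ε) * t1 : ℝ) : ℂ) * cis (-Φ)) z
    have hb : 0 ≤ 8 * (1 + 2 * S) / (U * 2 ^ N) := by positivity
    rw [two_mul (8 * (1 + 2 * S) / (U * 2 ^ N)), ENNReal.ofReal_add hb hb]
    refine le_trans (measure_mono ?_) ((measure_union_le _ _).trans (add_le_add nR nL))
    rintro ω ⟨hω | hω, hd⟩
    · rw [G2 ω _ hρ.le, if_pos (by linarith [hω.1])] at hd
      exact Or.inl ⟨abs_le.2 ⟨by linarith [hω.1], by linarith [hω.2]⟩, hd⟩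
    · rw [G2 ω _ hρ.le, if_neg (by linarith [hω.2])] at hd
      exact Or.inr ⟨abs_le.2 ⟨by linarith [hω.1], by linarith [hω.2]⟩, hd⟩

end Pool.Agent.MP_66a317_pr.Fast
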