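import Pool.Agent.MP_66a317_pr.Fast.Basic
open MeasureTheory Set Filter
open scoped ENNReal
namespace Pool.Agent.MP_66a317_pr.Fast

theorem floor_Zone {P : ℝ} (hP : 0 < P) (x : ℝ) : ∃ n : ℤ, n * P ≤ x ∧ x < n * P + P := by
  refine ⟨⌊x / P⌋, ?_, ?_⟩
  · have := Int.floor_le (x / P)
    rwa [le_div_iff₀ hP] at this
  · have := Int.lt_floor_add_one (x / P)
    rw [div_lt_iff₀ hP] at this
    linarith

theorem arc_Zone {P : ℝ} (hP : 0 < P) (b x d : ℝ) (hdP : d < P) :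
    volume {φ : ℝ | φ ∈ Ico 0 P ∧ ∃ n : ℤ, n * P + b ≤ φ + x ∧ φ + x ≤ n * P + b + d} ≤
      ENNReal.ofReal d := by
  obtain ⟨j, hj1, hj2⟩ := floor_Zone hP (x - b)
  obtain ⟨y, hy⟩ : ∃ y, y = x - b - j * P := ⟨_, rfl⟩
  have hy0 : 0 ≤ y := by linarith
  have hyP : y < P := by linarith
  have hsub : {φ : ℝ | φ ∈ Ico 0 P ∧ ∃ n : ℤ, n * P + b ≤ φ + x ∧ φ + x ≤ n * P + b + d} ⊆
      Icc 0 (d - y) ∪ Icc (P - y) (P - y + min d y) := by
    rintro φ ⟨⟨h0, h1⟩, n, h2, h3⟩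
    have e1 : ((n - j : ℤ) : ℝ) * P < 2 * P := by push_cast; linarith
    have e2 : (-1 : ℝ) * P < ((n - j : ℤ) : ℝ) * P := by push_cast; linarith
    have e3 : n - j < 2 := by exact_mod_cast lt_of_mul_lt_mul_right e1 hP.le
    have e4 : -1 < n - j := by exact_mod_cast lt_of_mul_lt_mul_right e2 hP.le
    have e5 : n = j ∨ n = j + 1 := by omega
    rcases e5 with rfl | rfl
    · exact Or.inl ⟨h0, by linarith⟩
    · push_cast at h2 h3
      refine Or.inr ⟨by linarith, ?_⟩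
      rcases le_total d y with h | h
      · rw [min_eq_left h]; linarith
      · rw [min_eq_right h]; linarith
  refine (measure_mono hsub).trans ((measure_union_le _ _).trans ?_)
  rw [Real.volume_Icc, Real.volume_Icc, sub_zero, add_sub_cancel_left]
  rcases le_total d y with h | h
  · rw [min_eq_left h, ENNReal.ofReal_of_nonpos (by linarith), zero_add]
  · rw [min_eq_right h, ← ENNReal.ofReal_add (by linarith) hy0, sub_add_cancel]

theorem zone_stmt : ZoneStmt := by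
  intro ξ τ Q te J dR dL d0 hte hξ hτ hmono hτ0 hQ hdR hdL hd0 hJ hend hR hL
  obtain ⟨P, hP⟩ : ∃ P, P = dR + dL + 2 * d0 := ⟨_, rfl⟩
  rw [← hP] at hR hL ⊢
  have hP0 : 0 < P := by linarith
  obtain ⟨ts, ⟨hts, hξs⟩, hmin⟩ : ∃ t, IsLeast (Icc 0 te ∩ ξ ⁻¹' Iic 0) t :=
    (isCompact_Icc.of_isClosed_subset (hξ.preimage_isClosed_of_isClosed isClosed_Icc isClosed_Iic)
      inter_subset_left).exists_isLeast ⟨te, ⟨hte, le_rfl⟩, hend⟩
  have hξ' : ContinuousOn ξ (Icc 0 ts) := hξ.mono (Icc_subset_Icc_right hts.2)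
  obtain ⟨t', ⟨ht', hξt'⟩, hmax⟩ : ∃ t, IsGreatest (Icc 0 ts ∩ ξ ⁻¹' Ici J) t :=
    (isCompact_Icc.of_isClosed_subset (hξ'.preimage_isClosed_of_isClosed isClosed_Icc isClosed_Ici)
      inter_subset_left).exists_isGreatest ⟨0, ⟨le_rfl, hts.1⟩, hJ⟩
  have hξs' : ξ ts ≤ 0 := hξs
  have hξt'' : J ≤ ξ t' := hξt'
  generalize hG : {φ : ℝ | φ ∈ Ico 0 P ∧
      ∃ t ∈ Icc 0 te, ξ t = Q (φ + τ t) ∧ ∃ n : ℤ,
        (n * P ≤ φ + τ t ∧ φ + τ t ≤ n * P + dR) ∨
        (n * P - d0 - dL ≤ φ + τ t ∧ φ + τ t ≤ n * P - d0)} = G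
  have hcover : Ico 0 P ⊆ G ∪
      ({φ : ℝ | φ ∈ Ico 0 P ∧ ∃ n : ℤ, n * P + dR ≤ φ + τ ts ∧ φ + τ ts ≤ n * P + dR + (P - dR)} ∪
        {φ : ℝ | φ ∈ Ico 0 P ∧ ∃ n : ℤ, n * P + (-d0 - dL) ≤ φ + τ t' ∧
          φ + τ t' ≤ n * P + (-d0 - dL) + (d0 + dL)}) := by
    intro φ hφ
    by_contra hno
    simp only [mem_union, not_or] at hno
    obtain ⟨hng, hb1, hb2⟩ := hno
    obtain ⟨n, hn1, hn2⟩ := floor_Zone hP0 (φ + τ ts)
    have hn3 : φ + τ ts ≤ n * P + dR := by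
      by_contra h
      exact hb1 ⟨hφ, n, (not_le.mp h).le, by linarith⟩
    have hg : ContinuousOn (fun t => ξ t - Q (φ + τ t)) (Icc 0 ts) :=
      hξ'.sub (hQ.comp (continuous_const.add hτ)).continuousOn
    have hc : Continuous fun t => φ + τ t := continuous_const.add hτ
    have hzero : ∀ t ∈ Icc 0 ts, ξ t - Q (φ + τ t) = 0 →
        ¬ ((n * P ≤ φ + τ t ∧ φ + τ t ≤ n * P + dR) ∨
          (n * P - d0 - dL ≤ φ + τ t ∧ φ + τ t ≤ n * P - d0)) := by
      intro t ht h0 h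
      apply hng
      rw [← hG]
      exact ⟨hφ, t, ⟨ht.1, ht.2.trans hts.2⟩, sub_eq_zero.mp h0, n, h⟩
    have hneg : ∀ t ∈ Icc 0 ts, n * P ≤ φ + τ t → ξ t < J := by
      intro t ht h
      by_contra hJt
      have h1 : φ + τ t ≤ n * P + dR := by linarith [hmono ht.2]
      have h2 := (hR n _ h h1).2
      have h3 := (hR n _ hn1 hn3).1
      obtain ⟨u, hu, hu0⟩ := intermediate_value_Icc' ht.2 (hg.mono (Icc_subset_Icc_left ht.1))
        (show (0 : ℝ) ∈ Icc (ξ ts - Q (φ + τ ts)) (ξ t - Q (φ + τ t)) from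
          ⟨by linarith, by linarith [not_lt.mp hJt]⟩)
      exact hzero u ⟨ht.1.trans hu.1, hu.2⟩ hu0
        (Or.inl ⟨by linarith [hmono hu.1], by linarith [hmono hu.2]⟩)
    have hup : φ + τ t' < n * P := by
      by_contra h
      exact absurd (hneg t' ht' (not_lt.mp h)) (not_lt.mpr hξt'')
    have hlow : φ + τ t' < n * P - d0 - dL := by
      by_contra h
      exact hb2 ⟨hφ, n, by linarith [not_lt.mp h], by linarith⟩
    obtain ⟨ta, hta, hea⟩ := intermediate_value_Icc ht'.2 hc.continuousOn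
      (show n * P - d0 - dL ∈ Icc (φ + τ t') (φ + τ ts) from ⟨hlow.le, by linarith⟩)
    have hea' : φ + τ ta = n * P - d0 - dL := hea
    obtain ⟨tb, htb, heb⟩ := intermediate_value_Icc hta.2 hc.continuousOn
      (show n * P - d0 ∈ Icc (φ + τ ta) (φ + τ ts) from ⟨by linarith, by linarith⟩)
    have heb' : φ + τ tb = n * P - d0 := heb
    have ha0 : 0 ≤ ta := ht'.1.trans hta.1
    have hb0 : 0 ≤ tb := ha0.trans htb.1
    have hξb : 0 < ξ tb := by
      by_contra h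
      have h1 : ts ≤ tb := hmin ⟨⟨hb0, htb.2.trans hts.2⟩, not_lt.mp h⟩
      linarith [hmono h1]
    have hξa : ξ ta < J := by
      by_contra h
      have h1 : ta ≤ t' := hmax ⟨⟨ha0, hta.2⟩, not_lt.mp h⟩
      linarith [hmono h1]
    obtain ⟨u, hu, hu0⟩ := intermediate_value_Icc htb.1 (hg.mono (Icc_subset_Icc ha0 htb.2))
      (show (0 : ℝ) ∈ Icc (ξ ta - Q (φ + τ ta)) (ξ tb - Q (φ + τ tb)) from
        ⟨by rw [hea', (hL n).1]; linarith, by rw [heb', (hL n).2]; linarith⟩)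
    exact hzero u ⟨ha0.trans hu.1, hu.2.trans htb.2⟩ hu0
      (Or.inr ⟨by linarith [hmono hu.1], by linarith [hmono hu.2]⟩)
  have h1 := (measure_mono (μ := volume) hcover).trans ((measure_union_le _ _).trans
    (add_le_add le_rfl ((measure_union_le _ _).trans
      (add_le_add (arc_Zone hP0 dR (τ ts) (P - dR) (by linarith))
        (arc_Zone hP0 (-d0 - dL) (τ t') (d0 + dL) (by linarith))))))
  rw [Real.volume_Ico, sub_zero, ← ENNReal.ofReal_add (by linarith) (by linarith)] at h1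
  have e : dR - dL - d0 = P - (P - dR + (d0 + dL)) := by ring
  rw [e, ENNReal.ofReal_sub _ (by linarith)]
  exact tsub_le_iff_right.mpr h1

end Pool.Agent.MP_66a317_pr.Fast
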