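import Pool.Agent.MP_66a317_pr.Fast.Scale
import Pool.Agent.MP_66a317_pr.Fast.Disperse
import Pool.Agent.MP_66a317_pr.Fast.Near
import Pool.Agent.MP_66a317_pr.Fast.Fan
import Pool.Agent.MP_66a317_pr.Fast.UpFanCore
import Pool.Agent.MP_66a317_pr.Fast.UpFan
import Pool.Agent.MP_66a317_pr.Fast.Excl
import Pool.Agent.MP_66a317_pr.Fast.UpJumpCore
import Pool.Agent.MP_66a317_pr.Fast.UpJump
import Pool.Agent.MP_66a317_pr.Fast.Master
import Pool.Agent.MP_66a317_pr.Fast.Zone
import Pool.Agent.MP_66a317_pr.Fast.Bridge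
import Pool.Agent.MP_66a317_pr.Fast.Path
import Pool.Agent.MP_66a317_pr.Fast.Cap
import Pool.Agent.MP_66a317_pr.Fast.Low
import Pool.Agent.MP_66a317_pr.Fast.LowCore
import Pool.Agent.MP_66a317_pr.Fast.Main

namespace Pool.Agent.MP_66a317_pr.Fast

theorem fan_all : FanStmt := fan_stmt fanLoc_stmt

theorem upFan_all : UpFanStmt := upFan_stmt (upFanCore_stmt disperse_stmt near_stmt fan_all)

theorem upJump_all : UpJumpStmt :=
  upJump_stmt (upJumpCore_stmt disperse_stmt near_stmt fan_all excl_stmt)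

theorem low_all : LowStmt :=
  low_stmt (lowCore_stmt master_stmt bridge_stmt path_stmt (cap_stmt zone_stmt hit_stmt))

theorem main_all : MainStmt := main_stmt scale_stmt upFan_all upJump_all low_all

end Pool.Agent.MP_66a317_pr.Fast
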