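import Pool.Agent.MP_66a317_pr.Fast.Basic

open MeasureTheory Set Filter
open scoped ENNReal

namespace Pool.Agent.MP_66a317_pr.Fast

theorem half_Bridge {X : Type} [MeasurableSpace X] {P V : ℝ} (hP : 0 < P) (F : ℝ → X)
    (hF : Measurable F) (C : Set X) (A : Set ℝ) (hA : A ⊆ Ico 0 P ∩ F ⁻¹' C)
    (hV : ENNReal.ofReal V ≤ volume A) :
    ENNReal.ofReal (V / (2 * P)) ≤
      ((2 : ℝ≥0∞)⁻¹ • (ProbabilityTheory.cond volume (Ico 0 P)).map F) C := by
  rw [Measure.smul_apply, smul_eq_mul]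
  refine le_trans ?_ (mul_le_mul_right (Measure.le_map_apply hF.aemeasurable C) _)
  rw [ProbabilityTheory.cond_apply measurableSet_Ico, Real.volume_Ico, sub_zero,
    ENNReal.ofReal_div_of_pos (by positivity), ENNReal.ofReal_mul (by norm_num),
    ENNReal.ofReal_ofNat, div_eq_mul_inv,
    ENNReal.mul_inv (Or.inl (by norm_num)) (Or.inl (by norm_num)), mul_comm, mul_assoc]
  exact mul_le_mul_right (mul_le_mul_right (hV.trans (measure_mono hA)) _) _

theorem bridge_stmt : BridgeStmt := by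
  intro r w P V σ _ hP h0 hl hm hV
  let F1 : ℝ → Traj (-1) 1 := fun φ => ⟨fun t => σ φ t, h0 φ, fun s t => by
    rw [one_mul, NNReal.dist_eq]
    exact hl φ s t s.2 t.2⟩
  let F2 : ℝ → Traj (-1) 1 := fun φ => ⟨fun t => (starRingEnd ℂ) (σ φ t), by simp [h0 φ],
    fun s t => by
      rw [one_mul, NNReal.dist_eq, Complex.dist_conj_conj]
      exact hl φ s t s.2 t.2⟩
  have m1 : Measurable F1 := Measurable.subtype_mk (measurable_pi_lambda _ fun t : NNReal => hm t)
  have m2 : Measurable F2 := Measurable.subtype_mk (measurable_pi_lambda _ fun t : NNReal =>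
    Complex.continuous_conj.measurable.comp (hm t))
  have hν : IsProbabilityMeasure (ProbabilityTheory.cond (volume : Measure ℝ) (Ico 0 P)) :=
    ProbabilityTheory.cond_isProbabilityMeasure_of_finite (by simpa using hP) (by simp)
  have p1 := Measure.isProbabilityMeasure_map
    (μ := ProbabilityTheory.cond (volume : Measure ℝ) (Ico 0 P)) m1.aemeasurable
  have p2 := Measure.isProbabilityMeasure_map
    (μ := ProbabilityTheory.cond (volume : Measure ℝ) (Ico 0 P)) m2.aemeasurable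
  have hμ : IsProbabilityMeasure
      ((2 : ℝ≥0∞)⁻¹ • (ProbabilityTheory.cond (volume : Measure ℝ) (Ico 0 P)).map F1 +
        (2 : ℝ≥0∞)⁻¹ • (ProbabilityTheory.cond (volume : Measure ℝ) (Ico 0 P)).map F2) :=
    ⟨by simp [ENNReal.inv_two_add_inv_two]⟩
  refine le_iSup_of_le ⟨_, hμ⟩ (le_iInf fun h => ?_)
  rw [ProbabilityMeasure.coe_mk, Measure.add_apply]
  rcases hV (fun t => h.1 t.toNNReal) (by simpa using h.2.1) (fun s t =>
    (h.2.2 _ _).trans (mul_le_mul_of_nonneg_left (dist_toNNReal_le s t) ‹_›)) with h1 | h1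
  · refine le_add_right (half_Bridge hP F1 m1 _ _ ?_ h1)
    rintro φ ⟨hφ, t, ht, hd⟩
    refine ⟨hφ, t.toNNReal, ?_⟩
    show dist (σ φ t.toNNReal) (h.1 t.toNNReal) ≤ r
    rwa [Real.coe_toNNReal t ht]
  · refine le_add_left (half_Bridge hP F2 m2 _ _ ?_ h1)
    rintro φ ⟨hφ, t, ht, hd⟩
    refine ⟨hφ, t.toNNReal, ?_⟩
    show dist ((starRingEnd ℂ) (σ φ t.toNNReal)) (h.1 t.toNNReal) ≤ r
    rwa [Real.coe_toNNReal t ht, ← Complex.dist_conj_conj, Complex.conj_conj]

end Pool.Agent.MP_66a317_pr.Fast
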